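import Pool.Agent.helper72.UP.Spec

set_option autoImplicit false

namespace Pool.Agent.helper72.UP

open Finset

theorem BAL_step (a b i : ℕ) (h : b ≤ a) :
    (a + 1).choose i * b.choose i ≤ a.choose i * (b + 1).choose i := by
  by_cases hi : b < i
  · rw [Nat.choose_eq_zero_of_lt hi, mul_zero]
    exact Nat.zero_le _
  have hi' : i ≤ b := not_lt.mp hi
  obtain ⟨c, rfl⟩ : ∃ c, b = i + c := ⟨b - i, by omega⟩
  obtain ⟨d, rfl⟩ : ∃ d, a = i + d := ⟨a - i, by omega⟩
  have hcd : c ≤ d := by omega
  have h1 := Nat.choose_mul_succ_eq (i + d) i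
  have h2 := Nat.choose_mul_succ_eq (i + c) i
  have e1 : i + d + 1 - i = d + 1 := by omega
  have e2 : i + c + 1 - i = c + 1 := by omega
  rw [e1] at h1
  rw [e2] at h2
  have h3 : (i + d + 1) * (c + 1) ≤ (i + c + 1) * (d + 1) := by nlinarith
  have h4 : ((i + d + 1).choose i * (i + c).choose i) * ((d + 1) * (c + 1)) ≤
      ((i + d).choose i * (i + c + 1).choose i) * ((d + 1) * (c + 1)) := by
    calc ((i + d + 1).choose i * (i + c).choose i) * ((d + 1) * (c + 1))
        = ((i + d + 1).choose i * (d + 1)) * ((i + c).choose i * (c + 1)) := by ring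
      _ = ((i + d).choose i * (i + d + 1)) * ((i + c).choose i * (c + 1)) := by rw [h1]
      _ = ((i + d).choose i * (i + c).choose i) * ((i + d + 1) * (c + 1)) := by ring
      _ ≤ ((i + d).choose i * (i + c).choose i) * ((i + c + 1) * (d + 1)) :=
          Nat.mul_le_mul_left _ h3
      _ = ((i + d).choose i * (d + 1)) * ((i + c).choose i * (i + c + 1)) := by ring
      _ = ((i + d).choose i * (d + 1)) * ((i + c + 1).choose i * (c + 1)) := by rw [h2]
      _ = ((i + d).choose i * (i + c + 1).choose i) * ((d + 1) * (c + 1)) := by ring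
  exact Nat.le_of_mul_le_mul_right h4 (by positivity)

theorem BAL_ind (n : ℕ) : ∀ a b i : ℕ, b ≤ a → a ≤ b + n →
    a.choose i * b.choose i ≤ ((a + b + 1) / 2).choose i * ((a + b) / 2).choose i := by
  induction n with
  | zero =>
    intro a b i h1 h2
    have e1 : (a + b + 1) / 2 = a := by omega
    have e2 : (a + b) / 2 = b := by omega
    rw [e1, e2]
  | succ n ih =>
    intro a b i h1 h2
    by_cases h3 : a ≤ b + 1
    · have e1 : (a + b + 1) / 2 = a := by omega
      have e2 : (a + b) / 2 = b := by omega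
      rw [e1, e2]
    · obtain ⟨a', rfl⟩ : ∃ a', a = a' + 1 := ⟨a - 1, by omega⟩
      have h4 := ih a' (b + 1) i (by omega) (by omega)
      have e1 : a' + (b + 1) = a' + 1 + b := by omega
      rw [e1] at h4
      exact (BAL_step a' b i (by omega)).trans h4

theorem BAL : BAL_stmt := by
  intro a b i
  rcases le_total b a with h | h
  · exact BAL_ind a a b i h (by omega)
  · have h1 := BAL_ind b b a i h (by omega)
    rw [mul_comm, add_comm a b]
    exact h1

end Pool.Agent.helper72.UP
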